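import Pool.Agent.H87.SN.Targets

/-! Row CL3: the classical harmonic map equation on an open set of smoothness (helper67). -/

set_option autoImplicit false

namespace Pool.Agent.H67.SN

open Pool.Agent.H87.SN
open MeasureTheory Metric Set Filter Topology
open scoped ContDiff RealInnerProductSpace

noncomputable section

theorem tsupport_smul_sub {n : ℕ} {F : Type*} [NormedAddCommGroup F] [NormedSpace ℝ F]
    (a : E n → ℝ) (b : E n → F) : tsupport (fun x => a x • b x) ⊆ tsupport a := by
  refine closure_mono ?_
  intro x hx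
  rw [Function.mem_support] at hx ⊢
  intro h
  exact hx (by rw [h, zero_smul])

theorem smul_int {n : ℕ} {F : Type*} [NormedAddCommGroup F] [NormedSpace ℝ F] {U : Set (E n)}
    (hU : IsOpen U) {a : E n → ℝ} {b : E n → F} (ha : Continuous a) (hac : HasCompactSupport a)
    (haU : tsupport a ⊆ U) (hb : ContinuousOn b U) :
    Integrable (fun x => a x • b x) := by
  have hc : Continuous (fun x => a x • b x) :=
    (ha.continuousOn.smul hb).continuous_of_tsupport_subset hU
      ((tsupport_smul_sub a b).trans haU)
  exact hc.integrable_of_hasCompactSupport (hac.mono' (by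
    intro x hx
    refine subset_tsupport a ?_
    rw [Function.mem_support] at hx ⊢
    intro h
    exact hx (by rw [h, zero_smul])))

theorem pf_CL3 (hIBP : T_IBP) (hCL1 : T_CL1) (hCL2 : T_CL2) : T_CL3 := by
  intro n m N A U u G hNc hA hSt hUo hUb hu
  have hucont : ContinuousOn u U := hu.continuousOn
  have huN := hCL1 n m N U u hNc hUo hUb hucont hSt.mem
  have hG := hCL2 n m U u G hSt.w12 hUo hUb hu
  have hdu : ContDiffOn ℝ ∞ (fderiv ℝ u) U := hu.fderiv_of_isOpen hUo (by simp)
  have hduc : ContinuousOn (fderiv ℝ u) U := hdu.continuousOn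
  have hddu : ContinuousOn (fderiv ℝ (fderiv ℝ u)) U :=
    (hdu.fderiv_of_isOpen hUo (m := ∞) (by simp)).continuousOn
  have hlapc : ContinuousOn (lap u) U := by
    unfold lap
    refine continuousOn_finsetSum _ fun i _ => ?_
    exact (hddu.clm_apply continuousOn_const).clm_apply continuousOn_const
  set q : E n → E m := fun x => ∑ i : Fin n, A (u x) (fderiv ℝ u x (bv i)) (fderiv ℝ u x (bv i))
    with hq
  have hqc : ContinuousOn q U := by
    refine continuousOn_finsetSum _ fun i _ => ?_
    have h1 : ContinuousOn (fun x => A (u x)) U := hA.comp hucont huN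
    have h2 : ContinuousOn (fun x => fderiv ℝ u x (bv i)) U := hduc.clm_apply continuousOn_const
    exact (h1.clm_apply h2).clm_apply h2
  have hgc : ContinuousOn (fun x => lap u x + q x) U := hlapc.add hqc
  have hkey : ∀ φ : E n → ℝ, ContDiff ℝ ∞ φ → HasCompactSupport φ → tsupport φ ⊆ U →
      ∫ x, φ x • (lap u x + q x) = 0 := by
    intro φ hφ hφc hφU
    have hφt : IsTest φ := ⟨hφ, hφc, hφU.trans hUb⟩
    have hφ1 : ContDiff ℝ 1 φ := hφ.of_le (by simp)
    have hout : ∀ x, x ∉ U → φ x = 0 ∧ fderiv ℝ φ x = 0 := by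
      intro x hx
      have h1 : x ∉ tsupport φ := fun h => hx (hφU h)
      refine ⟨image_eq_zero_of_notMem_tsupport h1, ?_⟩
      have h2 : x ∉ tsupport (fderiv ℝ φ) := fun h => h1 (tsupport_fderiv_subset ℝ h)
      exact image_eq_zero_of_notMem_tsupport h2
    have hae : ∀ᵐ x : E n, x ∈ U → G x = fderiv ℝ u x :=
      (ae_restrict_iff' hUo.measurableSet).1 hG
    have h1 := hSt.harmonic φ hφt
    have h2 : ∫ x, ∑ i : Fin n, (fderiv ℝ φ x (bv i)) • G x (bv i) =
        ∫ x, ∑ i : Fin n, (fderiv ℝ φ x (bv i)) • fderiv ℝ u x (bv i) := by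
      refine integral_congr_ae ?_
      filter_upwards [hae] with x hx
      by_cases hxU : x ∈ U
      · rw [hx hxU]
      · rw [(hout x hxU).2]
        simp
    have h3 : ∫ x, φ x • ∑ i : Fin n, A (u x) (G x (bv i)) (G x (bv i)) = ∫ x, φ x • q x := by
      refine integral_congr_ae ?_
      filter_upwards [hae] with x hx
      by_cases hxU : x ∈ U
      · rw [hx hxU]
      · rw [(hout x hxU).1, zero_smul, zero_smul]
    rw [h2, h3] at h1
    have hdφc : Continuous (fderiv ℝ φ) := hφ.continuous_fderiv (by simp)
    have hi1 : ∀ i : Fin n, Integrable (fun x => (fderiv ℝ φ x (bv i)) • fderiv ℝ u x (bv i)) := by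
      intro i
      have hts : tsupport (fun x => fderiv ℝ φ x (bv i)) ⊆ tsupport φ := by
        refine (closure_mono ?_).trans (tsupport_fderiv_subset ℝ)
        intro x hx
        rw [Function.mem_support] at hx ⊢
        intro h
        exact hx (by rw [h]; rfl)
      refine smul_int hUo (hdφc.clm_apply continuous_const) ?_ (hts.trans hφU)
        (hduc.clm_apply continuousOn_const)
      exact HasCompactSupport.of_support_subset_isCompact (K := tsupport φ) hφc
        ((subset_tsupport _).trans hts)
    have hi2 : ∀ i : Fin n, Integrable (fun x => φ x •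
        fderiv ℝ (fun y => fderiv ℝ u y (bv i)) x (bv i)) := by
      intro i
      refine smul_int hUo hφ.continuous hφc hφU ?_
      have h4 : ContDiffOn ℝ ∞ (fun y => fderiv ℝ u y (bv i)) U :=
        hdu.clm_apply contDiffOn_const
      exact ((h4.fderiv_of_isOpen hUo (m := ∞) (by simp)).continuousOn).clm_apply
        continuousOn_const
    have h5 : ∀ i : Fin n, ∫ x, φ x • fderiv ℝ (fun y => fderiv ℝ u y (bv i)) x (bv i) =
        - ∫ x, (fderiv ℝ φ x (bv i)) • fderiv ℝ u x (bv i) := by
      intro i
      refine hIBP.1 n m U φ (fun y => fderiv ℝ u y (bv i)) (bv i) hUo hφ1 hφc hφU ?_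
      exact (hdu.clm_apply contDiffOn_const).of_le (by simp)
    have h6 : ∫ x, φ x • lap u x =
        ∑ i : Fin n, ∫ x, φ x • fderiv ℝ (fun y => fderiv ℝ u y (bv i)) x (bv i) := by
      rw [← integral_finsetSum _ fun i _ => hi2 i]
      refine integral_congr_ae (Eventually.of_forall fun x => ?_)
      show φ x • lap u x = ∑ i : Fin n, φ x • fderiv ℝ (fun y => fderiv ℝ u y (bv i)) x (bv i)
      rw [← Finset.smul_sum]
      by_cases hxU : x ∈ U
      · congr 1
        unfold lap
        refine Finset.sum_congr rfl fun i _ => ?_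
        have h7 : DifferentiableAt ℝ (fderiv ℝ u) x :=
          (hdu.contDiffAt (hUo.mem_nhds hxU)).differentiableAt (by simp)
        rw [fderiv_clm_apply h7 (differentiableAt_const _)]
        simp
      · rw [(hout x hxU).1, zero_smul, zero_smul]
    have h8 : ∫ x, φ x • lap u x = - ∫ x, φ x • q x := by
      rw [h6, Finset.sum_congr rfl fun i _ => h5 i, Finset.sum_neg_distrib,
        ← integral_finsetSum _ fun i _ => hi1 i, h1]
    have h9 : ∀ x, φ x • (lap u x + q x) = φ x • lap u x + φ x • q x := fun x => smul_add _ _ _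
    simp_rw [h9]
    rw [integral_add (smul_int hUo hφ.continuous hφc hφU hlapc)
      (smul_int hUo hφ.continuous hφc hφU hqc), h8, neg_add_cancel]
  have hloc : LocallyIntegrableOn (fun x => lap u x + q x) U :=
    hgc.locallyIntegrableOn hUo.measurableSet
  have hae := hUo.ae_eq_zero_of_integral_contDiff_smul_eq_zero hloc hkey
  have hae2 : (fun x => lap u x + q x) =ᵐ[volume.restrict U] fun _ => 0 :=
    (ae_restrict_iff' hUo.measurableSet).2 hae
  have heq := Measure.eqOn_open_of_ae_eq hae2 hUo hgc continuousOn_const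
  intro x hx
  have h1 : lap u x + q x = 0 := heq hx
  exact eq_neg_of_add_eq_zero_left h1

end

end Pool.Agent.H67.SN
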