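import Pool.Agent.H87.SN.Targets

/-! Row CV1: chain rule for functions of the regularised radius (helper67). -/

set_option autoImplicit false

namespace Pool.Agent.H67.SN

open Pool.Agent.H87.SN
open MeasureTheory Metric Set Filter Topology
open scoped ContDiff RealInnerProductSpace

noncomputable section

theorem rho_sq {d : ℕ} (x : E (d + 2)) : rho x ^ 2 = x 0 ^ 2 + x 1 ^ 2 := by
  unfold rho
  rw [Real.sq_sqrt (by positivity)]

/-- the last coordinates as a linear map -/
def Zl (d : ℕ) : E (d + 2) →L[ℝ] E d := LinearMap.toContinuousLinearMap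
  { toFun := zp
    map_add' := by
      intro x y; ext i; simp [zp]
    map_smul' := by
      intro c x; ext i; simp [zp] }

theorem Zl_apply {d : ℕ} (x : E (d + 2)) : Zl d x = zp x := rfl

/-- a coordinate as a linear map -/
def cd {d : ℕ} (i : Fin (d + 2)) : E (d + 2) →L[ℝ] ℝ := EuclideanSpace.proj i

theorem cd_apply {d : ℕ} (i : Fin (d + 2)) (x : E (d + 2)) : cd i x = x i := rfl

theorem pf_CV1 : T_CV1 := by
  intro d H h hh hH
  set F : E (d + 2) → ℝ × E d := fun x => (Real.sqrt (rho x ^ 2 + h ^ 2), zp x) with hF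
  have hg0 : ∀ x : E (d + 2), 0 < rho x ^ 2 + h ^ 2 := fun x => by positivity
  have hFpos : ∀ x, F x ∈ {p : ℝ × E d | 0 < p.1} := fun x => Real.sqrt_pos.2 (hg0 x)
  have hFeq : F = fun x => (Real.sqrt (cd 0 x ^ 2 + cd 1 x ^ 2 + h ^ 2), Zl d x) := by
    funext x
    rw [hF]
    simp only [rho_sq, cd_apply, Zl_apply]
  have hFc : ContDiff ℝ 1 F := by
    rw [hFeq]
    refine ContDiff.prodMk ?_ (Zl d).contDiff
    refine ContDiff.sqrt ?_ ?_
    · exact (((cd 0).contDiff.pow 2).add ((cd 1).contDiff.pow 2)).add contDiff_const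
    · intro x
      have := hg0 x
      rw [rho_sq] at this
      exact this.ne'
  have hopen : IsOpen {p : ℝ × E d | 0 < p.1} := isOpen_lt continuous_const continuous_fst
  have hcd : ContDiff ℝ 1 (fun x : E (d + 2) => H (F x)) :=
    contDiff_iff_contDiffAt.2 fun x =>
      ((hH.contDiffAt (hopen.mem_nhds (hFpos x))).comp x hFc.contDiffAt)
  refine ⟨hcd, ?_⟩
  intro x
  set s : ℝ := Real.sqrt (rho x ^ 2 + h ^ 2) with hs
  have hs0 : 0 < s := Real.sqrt_pos.2 (hg0 x)
  have hHd : DifferentiableAt ℝ H (F x) :=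
    (hH.contDiffAt (hopen.mem_nhds (hFpos x))).differentiableAt (by norm_num)
  have hq : HasFDerivAt (fun x : E (d + 2) => cd 0 x ^ 2 + cd 1 x ^ 2 + h ^ 2)
      ((2 * cd 0 x) • cd 0 + (2 * cd 1 x) • cd 1) x := by
    have h0 : HasFDerivAt (fun x : E (d + 2) => cd 0 x ^ 2) ((2 * cd 0 x) • cd 0) x := by
      have := ((cd (d := d) 0).hasFDerivAt (x := x)).pow 2
      simpa [pow_one] using this
    have h1 : HasFDerivAt (fun x : E (d + 2) => cd 1 x ^ 2) ((2 * cd 1 x) • cd 1) x := by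
      have := ((cd (d := d) 1).hasFDerivAt (x := x)).pow 2
      simpa [pow_one] using this
    exact (h0.add h1).add_const _
  have hgx : cd 0 x ^ 2 + cd 1 x ^ 2 + h ^ 2 = rho x ^ 2 + h ^ 2 := by
    rw [rho_sq]
    rfl
  have hsq : HasFDerivAt (fun x : E (d + 2) => Real.sqrt (cd 0 x ^ 2 + cd 1 x ^ 2 + h ^ 2))
      ((1 / (2 * s)) • ((2 * cd 0 x) • cd 0 + (2 * cd 1 x) • cd 1)) x := by
    have := hq.sqrt (by rw [hgx]; exact (hg0 x).ne')
    rw [hgx] at this
    exact this
  have hFd : HasFDerivAt F (((1 / (2 * s)) • ((2 * cd 0 x) • cd 0 + (2 * cd 1 x) • cd 1)).prod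
      (Zl d)) x := by
    rw [hFeq]
    exact hsq.prodMk (Zl d).hasFDerivAt
  have hder : ∀ v : E (d + 2), fderiv ℝ (fun x : E (d + 2) => H (F x)) x v =
      fderiv ℝ H (F x) ((x 0 * v 0 + x 1 * v 1) / s, zp v) := by
    intro v
    have h1 : HasFDerivAt (fun x : E (d + 2) => H (F x)) _ x :=
      hHd.hasFDerivAt.comp x hFd
    rw [h1.fderiv]
    show fderiv ℝ H (F x) _ = _
    congr 1
    refine Prod.ext ?_ rfl
    show (1 / (2 * s)) * ((2 * x 0) * v 0 + (2 * x 1) * v 1) = (x 0 * v 0 + x 1 * v 1) / s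
    field_simp
  refine ⟨?_, ?_⟩
  · show - fderiv ℝ (fun x : E (d + 2) => H (F x)) x (Pm d x) =
      - (rho x ^ 2 / s * fderiv ℝ H (F x) (1, 0))
    rw [hder]
    congr 1
    have h2 : ((x 0 * (Pm d x) 0 + x 1 * (Pm d x) 1) / s, zp (Pm d x)) =
        (rho x ^ 2 / s) • ((1 : ℝ), (0 : E d)) := by
      refine Prod.ext ?_ ?_
      · show (x 0 * (Pm d x) 0 + x 1 * (Pm d x) 1) / s = (rho x ^ 2 / s) * 1
        have h3 : (Pm d x) 0 = x 0 := by simp [Pm]
        have h4 : (Pm d x) 1 = x 1 := by simp [Pm]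
        rw [h3, h4, rho_sq, mul_one]
        ring
      · show zp (Pm d x) = (rho x ^ 2 / s) • (0 : E d)
        rw [smul_zero]
        ext i
        simp [zp, Pm]
    rw [h2, map_smul, smul_eq_mul]
  · show ∑ i : Fin d, ‖fderiv ℝ (fun x : E (d + 2) => H (F x)) x (bv i.succ.succ)‖ ^ 2 =
      ∑ i : Fin d, (fderiv ℝ H (F x) (0, bv i)) ^ 2
    refine Finset.sum_congr rfl fun i _ => ?_
    rw [hder, Real.norm_eq_abs, sq_abs]
    congr 2
    refine Prod.ext ?_ ?_
    · show (x 0 * (bv i.succ.succ : E (d + 2)) 0 + x 1 * (bv i.succ.succ : E (d + 2)) 1) / s = 0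
      have h3 : (bv i.succ.succ : E (d + 2)) 0 = 0 := by
        unfold bv
        rw [PiLp.single_apply, if_neg]
        exact (Fin.succ_ne_zero _).symm
      have h4 : (bv i.succ.succ : E (d + 2)) 1 = 0 := by
        unfold bv
        rw [PiLp.single_apply, if_neg]
        intro h5
        have := congrArg Fin.val h5
        simp at this
      rw [h3, h4]
      simp
    · show zp (bv i.succ.succ : E (d + 2)) = bv i
      ext j
      simp [zp, bv]

end

end Pool.Agent.H67.SN
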