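import Pool.Agent.H87.SN.Targets

/-! Row GEO: geometry of smooth harmonic maps into `N` (helper67). -/

set_option autoImplicit false

namespace Pool.Agent.H67.SN

open Pool.Agent.H87.SN
open MeasureTheory Metric Set Filter Topology
open scoped ContDiff RealInnerProductSpace

noncomputable section

theorem tangent_of {n m : ℕ} {N : Set (E m)} {U : Set (E n)} {u : E n → E m} (hU : IsOpen U)
    (hu : ContDiffOn ℝ ∞ u U) (huN : ∀ x ∈ U, u x ∈ N) {x : E n} (hx : x ∈ U) (v : E n) :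
    IsTangent N (u x) (fderiv ℝ u x v) := by
  have hux : ContDiffAt ℝ ∞ u x := hu.contDiffAt (hU.mem_nhds hx)
  have hc0 : (fun s : ℝ => x + s • v) 0 = x := by simp
  have hlc : ContDiff ℝ 2 (fun s : ℝ => x + s • v) :=
    contDiff_const.add (contDiff_id.smul contDiff_const)
  refine ⟨fun s => u (x + s • v), ?_, ?_, ?_, ?_⟩
  · have h1 : ContDiffAt ℝ 2 u ((fun s : ℝ => x + s • v) 0) := by
      rw [hc0]
      exact hux.of_le (by norm_cast)
    exact h1.comp 0 hlc.contDiffAt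
  · have h1 : Tendsto (fun s : ℝ => x + s • v) (𝓝 0) (𝓝 x) := by
      have := hlc.continuous.tendsto 0
      rwa [zero_smul, add_zero] at this
    filter_upwards [h1.eventually (hU.mem_nhds hx)] with s hs
    exact huN _ hs
  · show u (x + (0 : ℝ) • v) = u x
    rw [zero_smul, add_zero]
  · have h1 : HasDerivAt (fun s : ℝ => x + s • v) v 0 := by
      have := ((hasDerivAt_id (0 : ℝ)).smul_const v).const_add x
      simpa using this
    have h2 : HasFDerivAt u (fderiv ℝ u x) ((fun s : ℝ => x + s • v) 0) := by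
      rw [hc0]
      exact (hux.differentiableAt (by simp)).hasFDerivAt
    exact (h2.comp_hasDerivAt 0 h1).deriv

theorem pf_GEO (hROT : T_ROT) : T_GEO := by
  intro m N A hN hA
  have hAc : ContinuousOn A N := hA.continuousOn
  obtain ⟨C, hC⟩ : ∃ C : ℝ, ∀ x ∈ N, ‖A x‖ ≤ C :=
    IsCompact.exists_bound_of_continuousOn (E := E m →L[ℝ] E m →L[ℝ] E m) hN hAc
  refine ⟨max C 0, le_max_right _ _, ?_⟩
  intro d U u hU hu huN hlap
  set CA := max C 0 with hCA
  have hCA0 : 0 ≤ CA := le_max_right _ _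
  have hAb : ∀ q ∈ N, ∀ v w : E m, ‖A q v w‖ ≤ CA * ‖v‖ * ‖w‖ := by
    intro q hq v w
    have h1 : ‖A q v w‖ ≤ ‖A q v‖ * ‖w‖ := (A q v).le_opNorm w
    have h2 : ‖A q v‖ ≤ ‖A q‖ * ‖v‖ := (A q).le_opNorm v
    have h3 : ‖A q‖ ≤ CA := (hC q hq).trans (le_max_left _ _)
    calc ‖A q v w‖ ≤ ‖A q v‖ * ‖w‖ := h1
      _ ≤ (‖A q‖ * ‖v‖) * ‖w‖ := mul_le_mul_of_nonneg_right h2 (norm_nonneg _)
      _ ≤ (CA * ‖v‖) * ‖w‖ := by gcongr
  have htan : ∀ x ∈ U, ∀ v : E (d + 2), IsTangent N (u x) (fderiv ℝ u x v) :=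
    fun x hx v => tangent_of hU hu huN hx v
  have hnu : ∀ x ∈ U, ∀ i : Fin (d + 2), ∀ τ : E m, IsTangent N (u x) τ →
      ⟪A (u x) (fderiv ℝ u x (bv i)) (fderiv ℝ u x (bv i)), τ⟫ = 0 := by
    intro x hx i τ hτ
    exact hA.normal (u x) (huN x hx) _ _ τ (htan x hx _) (htan x hx _) hτ
  refine ⟨?_, ?_, ?_⟩
  · intro x hx v
    rw [hlap x hx, inner_neg_right, inner_sum, neg_eq_zero]
    refine Finset.sum_eq_zero fun i _ => ?_
    rw [real_inner_comm]
    exact hnu x hx i _ (htan x hx v)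
  · intro x hx
    rw [hlap x hx, norm_neg]
    refine (norm_sum_le _ _).trans ?_
    unfold nsq
    rw [Finset.mul_sum]
    refine Finset.sum_le_sum fun i _ => ?_
    have := hAb (u x) (huN x hx) (fderiv ℝ u x (bv i)) (fderiv ℝ u x (bv i))
    calc _ ≤ _ := this
      _ = CA * ‖fderiv ℝ u x (bv i)‖ ^ 2 := by ring
  · intro x hx
    have hR := hROT d
    have hux : ContDiffAt ℝ ∞ u x := hu.contDiffAt (hU.mem_nhds hx)
    have hr0 : rot 0 x = x := hR.zero x
    have hrs : ContDiff ℝ 2 (fun s : ℝ => rot s x) := by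
      unfold rot
      exact (contDiff_const.add ((Real.contDiff_cos.sub contDiff_const).smul contDiff_const)).add
        (Real.contDiff_sin.smul contDiff_const)
    set γ : ℝ → E m := fun s => u (rot s x) with hγ
    have hγ2 : ContDiffAt ℝ 2 γ 0 := by
      have h1 : ContDiffAt ℝ 2 u ((fun s : ℝ => rot s x) 0) := by
        show ContDiffAt ℝ 2 u (rot 0 x)
        rw [hr0]
        exact hux.of_le (by norm_cast)
      exact h1.comp 0 hrs.contDiffAt
    have htend : Tendsto (fun s : ℝ => rot s x) (𝓝 0) (𝓝 x) := by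
      have := hrs.continuous.tendsto 0
      rwa [hr0] at this
    have hev : ∀ᶠ s in 𝓝 (0 : ℝ), rot s x ∈ U := htend.eventually (hU.mem_nhds hx)
    have hγN : ∀ᶠ s in 𝓝 (0 : ℝ), γ s ∈ N := by
      filter_upwards [hev] with s hs
      exact huN _ hs
    have hγ0 : γ 0 = u x := by
      show u (rot 0 x) = u x
      rw [hr0]
    have hd1 : ∀ s : ℝ, rot s x ∈ U → HasDerivAt γ (uth u (rot s x)) s := by
      intro s hs
      have h1 : HasFDerivAt u (fderiv ℝ u (rot s x)) (rot s x) :=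
        ((hu.contDiffAt (hU.mem_nhds hs)).differentiableAt (by simp)).hasFDerivAt
      exact h1.comp_hasDerivAt s (hR.hasDeriv x s)
    have hd1e : deriv γ =ᶠ[𝓝 0] fun s => uth u (rot s x) := by
      filter_upwards [hev] with s hs
      exact (hd1 s hs).deriv
    have hx0 : rot 0 x ∈ U := by rw [hr0]; exact hx
    have hdγ0 : deriv γ 0 = uth u x := by
      rw [(hd1 0 hx0).deriv, hr0]
    have hduth : ContDiffOn ℝ ∞ (uth u) U := by
      unfold uth
      have h1 : ContDiffOn ℝ ∞ (fderiv ℝ u) U := hu.fderiv_of_isOpen hU (by simp)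
      exact h1.clm_apply (Jm d).contDiff.contDiffOn
    have hdd : deriv (deriv γ) 0 = uthth u x := by
      rw [hd1e.deriv_eq]
      have h1 : HasFDerivAt (uth u) (fderiv ℝ (uth u) (rot 0 x)) (rot 0 x) :=
        ((hduth.contDiffAt (hU.mem_nhds hx0)).differentiableAt (by simp)).hasFDerivAt
      have h2 := (h1.comp_hasDerivAt 0 (hR.hasDeriv x 0)).deriv
      rw [hr0] at h2
      exact h2
    have hcurve : ∀ i : Fin (d + 2),
        ⟪uthth u x, A (u x) (fderiv ℝ u x (bv i)) (fderiv ℝ u x (bv i))⟫ =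
        - ⟪A (u x) (uth u x) (uth u x), A (u x) (fderiv ℝ u x (bv i)) (fderiv ℝ u x (bv i))⟫ := by
      intro i
      have h1 := hA.curve γ hγ2 hγN (A (u x) (fderiv ℝ u x (bv i)) (fderiv ℝ u x (bv i))) (by
        intro τ hτ
        rw [hγ0] at hτ
        exact hnu x hx i τ hτ)
      rw [hdd, hdγ0, hγ0, inner_add_left] at h1
      linarith
    rw [hlap x hx, inner_neg_right, abs_neg, inner_sum]
    refine (Finset.abs_sum_le_sum_abs _ _).trans ?_
    unfold nsq
    rw [Finset.mul_sum]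
    refine Finset.sum_le_sum fun i _ => ?_
    rw [hcurve i, abs_neg]
    refine (abs_real_inner_le_norm _ _).trans ?_
    have h1 := hAb (u x) (huN x hx) (uth u x) (uth u x)
    have h2 := hAb (u x) (huN x hx) (fderiv ℝ u x (bv i)) (fderiv ℝ u x (bv i))
    calc _ ≤ (CA * ‖uth u x‖ * ‖uth u x‖) * (CA * ‖fderiv ℝ u x (bv i)‖ *
          ‖fderiv ℝ u x (bv i)‖) := mul_le_mul h1 h2 (norm_nonneg _) (by positivity)
      _ = CA ^ 2 * ‖uth u x‖ ^ 2 * ‖fderiv ℝ u x (bv i)‖ ^ 2 := by ring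

end

end Pool.Agent.H67.SN
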